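import Pool.Agent.Run7.h735.IK.Surf

/-!
# Coverings of the plane: definitions
-/

set_option autoImplicit false

universe u

namespace Pool.Agent.Run7.h735.RN

open Polynomial Pool.Agent.Y134.Cyc Pool.Agent.Y134.TF Pool.Agent.TH125.Gal
  Pool.Agent.Run7.h735.IK
open Pool.Agent.H914 Pool.Agent.H914.VarClass Pool.Agent.H914.VarClass.Obj
  Pool.Agent.H914.WeilCohomology Pool.Agent.H281R3.HT

variable {k : Type u} [Field k] {𝒱 : VarClass k} {ops : CycleOps 𝒱}
  {W : WeilCohomology.{u, 0} ops} {Γ : Type} [Group Γ]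

/-- If `S` is the surface `w ^ (p ^ s) = F(x, y)` over `κ`, then `CF.BoundAt` holds over all finite extensions of `κ`,
with the number `B m` for the extension of degree `m`. -/
def BoundsHold (χ : Γ →* W.Kˣ) (S : PVar W Γ) (p s : ℕ) (κ : Type) [Field κ] [Fintype κ]
    (F : MvPolynomial (Fin 2) κ) (B : ℕ → ℕ) : Prop :=
  ∀ v : CyclicSurface χ S.act S.P p s κ F, ∀ m : ℕ, 0 < m → CF.BoundAt χ S (v.φ ^ m) (B m)

/-- If `S` is the surface `w ^ (p ^ s) = F(x, y)` over `κ`, then the Tate conjecture for divisors holds for `S` over the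
extensions of `κ` whose degree has the property `Q`. -/
def TateForDegrees (χ : Γ →* W.Kˣ) (S : PVar W Γ) (p s : ℕ) (κ : Type) [Field κ] [Fintype κ]
    (F : MvPolynomial (Fin 2) κ) (Q : ℕ → Prop) : Prop :=
  ∀ v : CyclicSurface χ S.act S.P p s κ F, ∀ m : ℕ, 0 < m → Q m →
    CF.TateForDivisors χ S (v.φ ^ m)

end Pool.Agent.Run7.h735.RN
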