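import Pool.Agent.Run7.h735.RN.Mult
import Pool.Agent.Run7.h735.RN.Surf
import Pool.Agent.Run7.h735.IK.Main

/-!
# Coverings branched along rational curves: Conjecture T
-/

set_option autoImplicit false

universe u

namespace Pool.Agent.Run7.h735.RN

open Polynomial Pool.Agent.Y134.Cyc Pool.Agent.Y134.TF Pool.Agent.TH125.Gal Pool.Agent.Y130
  Pool.Agent.Run7.h735.CP Pool.Agent.Run7.h735.CF Pool.Agent.Run7.h735.TP Pool.Agent.Run7.h735.IK
open Pool.Agent.H914 Pool.Agent.H914.VarClass Pool.Agent.H914.VarClass.Obj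
  Pool.Agent.H914.WeilCohomology Pool.Agent.H281R3.HT

variable {k : Type u} [Field k] {𝒱 : VarClass k} {ops : CycleOps 𝒱}
  {W : WeilCohomology.{u, 0} ops} {Γ : Type} [Group Γ]

variable [IsAlgClosed W.K] {χ : Γ →* W.Kˣ}
  {S : PVar W Γ} {p s : ℕ} {κ : Type} [Field κ] [Fintype κ]

/-- The place with the explicit quotient. -/
noncomputable def toPlace (hp : p.Prime) {u v : κ[X]} {G : Finset κ[X]} (hG : NonSplit u v G)
    {F : MvPolynomial (Fin 2) κ} (hF : IsImage F u v)
    (P : CyclicSurface χ S.act S.P p s κ F) :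
    CyclicPlace χ S.act S.P p s (npoly (ZMod p) G) where
  κ := κ
  dvd := P.dvd
  F := F
  θ := P.θ
  order := P.order
  φ := P.φ
  frob := P.frob
  zeta :=
    { P₁ := P.zeta.P₁
      P₂ := P.zeta.P₂
      B₁ := P.zeta.B₁
      B₂ := P.zeta.B₂
      roots₁ := P.zeta.roots₁
      roots₂ := P.zeta.roots₂
      curve := P.zeta.curve
      quotient := quotient_eq hp hG hF P.zeta.P₁ P.zeta.P₂ P.zeta.B₁ P.zeta.B₂
        P.zeta.roots₁.2 P.zeta.roots₂.2 P.zeta.curve }
  stable := P.stable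
  parts := P.parts

/-- **The bound at every level.** -/
theorem boundAt (h : Cover χ S 1) (hp : p.Prime) (hp2 : p ≠ 2) (hs : 1 ≤ s) {u v : κ[X]}
    {G : Finset κ[X]} (hG : NonSplit u v G) {F : MvPolynomial (Fin 2) κ} (hF : IsImage F u v)
    (P : CyclicSurface χ S.act S.P p s κ F) {m : ℕ} (hm : 0 < m) :
    BoundAt χ S (P.φ ^ m) (nodeBound p s G m) := by
  have h1 := CF.main h hp hs (toPlace hp hG hF P) hm (nmult p G)
    (dividesAt hp hp2 (fun g hg => (hG.deg hg).2) hm)
  rw [level_value hp s hm G] at h1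
  exact h1

end Pool.Agent.Run7.h735.RN
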