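import Mathlib

/-!
# Plane curves parametrized by the line, with non-split double points: definitions
-/

set_option autoImplicit false

namespace Pool.Agent.Run7.h735.RN

open Polynomial

/-- The point `(u(t), v(t))` of the plane. -/
noncomputable def param {κ K : Type} [Field κ] [Field K] [Algebra κ K] (u v : κ[X]) (t : K) :
    Fin 2 → K :=
  ![aeval t u, aeval t v]

/-- The curve `F(x, y) = 0` is the image of the line under `t ↦ (u(t), v(t))`. -/
def IsImage {κ : Type} [Field κ] (F : MvPolynomial (Fin 2) κ) (u v : κ[X]) : Prop :=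
  ∀ z : Fin 2 → AlgebraicClosure κ, MvPolynomial.aeval z F = 0 ↔ ∃ t, param u v t = z

/-- The points of the curve `t ↦ (u(t), v(t))` have at most two parameters; the parameters of the double points
are the roots of the polynomials in the finite set `G` of monic irreducible polynomials; and the two parameters of a
double point are roots of the same polynomial in `G`, so they are conjugate over `κ`: the double points are not
split. -/
structure NonSplit {κ : Type} [Field κ] (u v : κ[X]) (G : Finset κ[X]) : Prop where
  irreducible : ∀ g ∈ G, g.Monic ∧ Irreducible g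
  two : ∀ t₁ t₂ t₃ : AlgebraicClosure κ, param u v t₁ = param u v t₂ →
    param u v t₁ = param u v t₃ → t₁ = t₂ ∨ t₁ = t₃ ∨ t₂ = t₃
  double : ∀ g ∈ G, ∀ t : AlgebraicClosure κ, aeval t g = 0 →
    ∃ t', t' ≠ t ∧ param u v t' = param u v t
  conj : ∀ t t' : AlgebraicClosure κ, t ≠ t' → param u v t = param u v t' →
    ∃ g ∈ G, aeval t g = 0 ∧ aeval t' g = 0

/-- The part `n'` of `n` prime to `p`. -/
def coPart (p n : ℕ) : ℕ := n / p ^ n.factorization p

/-- The term of a closed double point of degree `D`: `p ^ v (gcd(m, 2 D)' - gcd(m, D)')`, where `p ^ v` is the power of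
`p` in `D` and `n'` is the part of `n` prime to `p`. -/
def nodeTerm (p D m : ℕ) : ℕ :=
  p ^ D.factorization p * (coPart p (Nat.gcd m (2 * D)) - coPart p (Nat.gcd m D))

/-- The number `(p ^ s - 1) ∑ p ^ v (gcd(m, 2 D)' - gcd(m, D)')`, the sum over the polynomials in `G`, of degree `2 D`. -/
def nodeBound {κ : Type} [Field κ] (p s : ℕ) (G : Finset κ[X]) (m : ℕ) : ℕ :=
  (p ^ s - 1) * ∑ g ∈ G, nodeTerm p (g.natDegree / 2) m

end Pool.Agent.Run7.h735.RN
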