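import Pool.Agent.Run7.h735.RN.Fix
import Pool.Agent.Run7.h735.RN.Defs
import Pool.Agent.Y134.Cyc.Defs

/-!
# The number of points of a rational curve with non-split double points
-/

set_option autoImplicit false

namespace Pool.Agent.Run7.h735.RN

open Polynomial Finset Pool.Agent.Y134.Cyc

/-- The number of the elements of the image of a map with fibres of at most two elements. -/
theorem two_card {α β : Type} [DecidableEq α] [DecidableEq β] (S : Finset α) (f : α → β)
    (h3 : ∀ a b c : α, f a = f b → f a = f c → a = b ∨ a = c ∨ b = c) :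
    2 * (S.image f).card + (S.filter fun a => ∃ b ∈ S, b ≠ a ∧ f b = f a).card = 2 * S.card := by
  classical
  set S' := S.filter fun a => ∃ b ∈ S, b ≠ a ∧ f b = f a with hS'
  have h1 : S.card = ∑ z ∈ S.image f, (S.filter fun a => f a = z).card :=
    card_eq_sum_card_fiberwise fun a ha => mem_image_of_mem f ha
  have h2 : S'.card = ∑ z ∈ S.image f, (S'.filter fun a => f a = z).card :=
    card_eq_sum_card_fiberwise fun a ha => mem_image_of_mem f (mem_of_mem_filter a ha)
  rw [h1, h2, mul_comm 2 (S.image f).card, ← smul_eq_mul, ← sum_const, ← sum_add_distrib, mul_sum]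
  refine sum_congr rfl fun z hz => ?_
  obtain ⟨a, ha, rfl⟩ := mem_image.1 hz
  by_cases hb : ∃ b ∈ S, b ≠ a ∧ f b = f a
  · obtain ⟨b, hb, hba, hfb⟩ := hb
    have e1 : (S.filter fun c => f c = f a) = {a, b} := by
      ext c
      simp only [mem_filter, mem_insert, mem_singleton]
      constructor
      · rintro ⟨-, h⟩
        rcases h3 a b c hfb.symm h.symm with h4 | h4 | h4
        · exact absurd h4.symm hba
        · exact Or.inl h4.symm
        · exact Or.inr h4.symm
      · rintro (rfl | rfl)
        · exact ⟨ha, rfl⟩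
        · exact ⟨hb, hfb⟩
    have e2 : (S'.filter fun c => f c = f a) = {a, b} := by
      ext c
      simp only [hS', mem_filter, mem_insert, mem_singleton]
      constructor
      · rintro ⟨⟨-, -⟩, h⟩
        rcases h3 a b c hfb.symm h.symm with h4 | h4 | h4
        · exact absurd h4.symm hba
        · exact Or.inl h4.symm
        · exact Or.inr h4.symm
      · rintro (rfl | rfl)
        · exact ⟨⟨ha, b, hb, hba, hfb⟩, rfl⟩
        · exact ⟨⟨hb, a, ha, hba.symm, hfb.symm⟩, hfb⟩
    rw [e1, e2, card_pair hba.symm]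
    rfl
  · have e1 : (S.filter fun c => f c = f a) = {a} := by
      ext c
      simp only [mem_filter, mem_singleton]
      constructor
      · rintro ⟨hc, h⟩
        by_contra hne
        exact hb ⟨c, hc, hne, h⟩
      · rintro rfl
        exact ⟨ha, rfl⟩
    have e2 : (S'.filter fun c => f c = f a) = ∅ := by
      ext c
      simp only [hS', mem_filter, notMem_empty, iff_false]
      rintro ⟨⟨hc, b, hbS, hbc, hbf⟩, h⟩
      by_cases hca : c = a
      · subst hca
        exact hb ⟨b, hbS, hbc, hbf⟩
      · exact hb ⟨c, hc, hca, h⟩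
    rw [e1, e2, card_singleton, card_empty]
    rfl

section
variable {κ : Type} [Field κ] [Fintype κ] {u v : κ[X]} {G : Finset κ[X]}

lemma param_pow {K : Type} [Field K] [Algebra κ K] (u v : κ[X]) (t : K) (j : ℕ) :
    param u v (t ^ Fintype.card κ ^ j) = fun i => (param u v t i) ^ Fintype.card κ ^ j := by
  unfold param
  rw [aeval_pow_card, aeval_pow_card]
  ext i
  fin_cases i <;> simp

/-- The two parameters of a double point. -/
theorem partner (h : NonSplit u v G) {g : κ[X]} (hg : g ∈ G) {t : AlgebraicClosure κ}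
    (ht : aeval t g = 0) : ∃ D : ℕ, 0 < D ∧ g.natDegree = 2 * D ∧
      param u v (t ^ Fintype.card κ ^ D) = param u v t ∧ t ^ Fintype.card κ ^ D ≠ t := by
  obtain ⟨-, hirr⟩ := h.irreducible g hg
  obtain ⟨t', hne, hpar⟩ := h.double g hg t ht
  obtain ⟨g', hg', h1, h2⟩ := h.conj t' t hne hpar
  have hgg : g' = g := by
    have h3 : g ∣ g' := (hirr.dvd_iff_aeval_eq_zero ht).1 h2
    obtain ⟨hm', hirr'⟩ := h.irreducible g' hg'
    have h4 := hirr.associated_of_dvd hirr' h3
    exact (eq_of_monic_of_associated (h.irreducible g hg).1 hm' h4).symm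
  subst hgg
  obtain ⟨j, hj, rfl⟩ := conj_roots hirr ht h1
  -- `j` is half of the degree
  have h5 : param u v ((t ^ Fintype.card κ ^ j) ^ Fintype.card κ ^ j) = param u v t := by
    rw [param_pow, hpar, ← param_pow, hpar]
  have h6 : (t ^ Fintype.card κ ^ j) ^ Fintype.card κ ^ j = t := by
    rcases h.two t (t ^ Fintype.card κ ^ j) ((t ^ Fintype.card κ ^ j) ^ Fintype.card κ ^ j)
      hpar.symm h5.symm with h6 | h6 | h6
    · exact absurd h6.symm hne
    · exact h6.symm
    · exfalso
      have h7 : (fun x : AlgebraicClosure κ => x ^ Fintype.card κ ^ j).Injective := by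
        intro x y hxy
        obtain ⟨c, hc⟩ := CharP.exists κ
        have hcp : Fact c.Prime := ⟨CharP.char_is_prime κ c⟩
        have hcK : CharP (AlgebraicClosure κ) c :=
          charP_of_injective_algebraMap (algebraMap κ (AlgebraicClosure κ)).injective c
        obtain ⟨n, -, hn⟩ := FiniteField.card κ c
        have hxy' : x ^ c ^ ((n : ℕ) * j) = y ^ c ^ ((n : ℕ) * j) := by
          have : x ^ Fintype.card κ ^ j = y ^ Fintype.card κ ^ j := hxy
          rwa [hn, ← pow_mul] at this
        exact iterateFrobenius_inj (AlgebraicClosure κ) c ((n : ℕ) * j) hxy'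
      exact hne (h7 h6).symm
  rw [pow_add_iter] at h6
  have h8 := (pow_eq_self_iff hirr ht (j + j)).1 h6
  have h9 : ¬ g'.natDegree ∣ j := fun h => hne ((pow_eq_self_iff hirr ht j).2 h)
  have hj0 : j ≠ 0 := by
    rintro rfl
    exact h9 (dvd_zero _)
  obtain ⟨c, hc⟩ := h8
  have hc1 : c = 1 := by
    have hc0 : c ≠ 0 := by
      rintro rfl
      omega
    have hc2 : c < 2 := by
      by_contra hlt
      rw [not_lt] at hlt
      have := Nat.mul_le_mul_left g'.natDegree hlt
      omega
    omega
  subst hc1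
  exact ⟨j, Nat.pos_of_ne_zero hj0, by omega, hpar, hne⟩

/-- The powers of Frobenius which fix a double point. -/
theorem param_fixed_iff (h : NonSplit u v G) {g : κ[X]} (hg : g ∈ G) {t : AlgebraicClosure κ}
    (ht : aeval t g = 0) (m : ℕ) :
    param u v (t ^ Fintype.card κ ^ m) = param u v t ↔ g.natDegree / 2 ∣ m := by
  obtain ⟨-, hirr⟩ := h.irreducible g hg
  obtain ⟨D, hD, hdeg, hpar, hne⟩ := partner h hg ht
  rw [hdeg, Nat.mul_div_cancel_left _ two_pos]
  constructor
  · intro h1
    rcases h.two t (t ^ Fintype.card κ ^ m) (t ^ Fintype.card κ ^ D) h1.symm hpar.symm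
      with h2 | h2 | h2
    · have h3 := (pow_eq_self_iff hirr ht m).1 h2.symm
      rw [hdeg] at h3
      exact (dvd_mul_left D 2).trans h3
    · exact absurd h2.symm hne
    · -- `m = D` modulo `2 D`
      have h3 : (t ^ Fintype.card κ ^ m) ^ Fintype.card κ ^ D = t := by
        rw [h2, pow_add_iter, (pow_eq_self_iff hirr ht (D + D))]
        rw [hdeg]
        exact ⟨1, by ring⟩
      rw [pow_add_iter, pow_eq_self_iff hirr ht, hdeg] at h3
      have h4 : D ∣ m + D := (dvd_mul_left D 2).trans h3
      exact (Nat.dvd_add_left dvd_rfl).1 h4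
  · rintro ⟨c, rfl⟩
    induction c with
    | zero => simp
    | succ c ih =>
      rw [mul_add, mul_one, ← pow_add_iter, param_pow, ih, ← param_pow, hpar]

/-- The roots of a polynomial in the algebraic closure. -/
noncomputable def rts (g : κ[X]) : Finset (AlgebraicClosure κ) :=
  open Classical in (g.map (algebraMap κ (AlgebraicClosure κ))).roots.toFinset

omit [Fintype κ] in
lemma mem_rts {g : κ[X]} (hg : Irreducible g) (t : AlgebraicClosure κ) :
    t ∈ rts g ↔ aeval t g = 0 := by
  classical
  have hne : g.map (algebraMap κ (AlgebraicClosure κ)) ≠ 0 := by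
    rw [Ne, Polynomial.map_eq_zero]
    exact hg.ne_zero
  unfold rts
  rw [Multiset.mem_toFinset, mem_roots hne, IsRoot.def, eval_map_algebraMap]

lemma card_rts {g : κ[X]} (hg : Irreducible g) : (rts g).card = g.natDegree := by
  rw [← card_roots_irred (K := AlgebraicClosure κ) hg, ← Set.ncard_coe_finset]
  congr 1
  ext t
  rw [Finset.mem_coe, mem_rts hg]
  rfl

/-- The roots of the polynomials in `G` with the property `P`. -/
noncomputable def sel (G : Finset κ[X]) (P : κ[X] → Prop) : Finset (AlgebraicClosure κ) :=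
  open Classical in (G.filter P).biUnion rts

omit [Fintype κ] in
lemma mem_sel (h : NonSplit u v G) (P : κ[X] → Prop) (t : AlgebraicClosure κ) :
    t ∈ sel G P ↔ ∃ g ∈ G, P g ∧ aeval t g = 0 := by
  classical
  unfold sel
  rw [mem_biUnion]
  constructor
  · rintro ⟨g, hg, ht⟩
    rw [mem_filter] at hg
    exact ⟨g, hg.1, hg.2, (mem_rts (h.irreducible g hg.1).2 t).1 ht⟩
  · rintro ⟨g, hg, hP, ht⟩
    exact ⟨g, mem_filter.2 ⟨hg, hP⟩, (mem_rts (h.irreducible g hg).2 t).2 ht⟩

omit [Fintype κ] in
lemma eq_of_root (h : NonSplit u v G) {g g' : κ[X]} (hg : g ∈ G) (hg' : g' ∈ G)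
    {t : AlgebraicClosure κ} (h1 : aeval t g = 0) (h2 : aeval t g' = 0) : g = g' := by
  obtain ⟨hm, hirr⟩ := h.irreducible g hg
  obtain ⟨hm', hirr'⟩ := h.irreducible g' hg'
  have h3 : g ∣ g' := (hirr.dvd_iff_aeval_eq_zero h1).1 h2
  exact eq_of_monic_of_associated hm hm' (hirr.associated_of_dvd hirr' h3)

lemma card_sel (h : NonSplit u v G) (P : κ[X] → Prop) [DecidablePred P] :
    (sel G P).card = ∑ g ∈ G, if P g then g.natDegree else 0 := by
  letI : DecidableEq (AlgebraicClosure κ) := Classical.decEq _
  have e : sel G P = (G.filter P).biUnion rts := by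
    unfold sel
    ext t
    simp only [mem_biUnion, mem_filter]
  rw [e, card_biUnion, sum_filter]
  · refine sum_congr rfl fun g hg => ?_
    split_ifs
    · exact card_rts (h.irreducible g hg).2
    · rfl
  · intro g hg g' hg' hne
    rw [mem_coe, mem_filter] at hg hg'
    change Disjoint (rts g) (rts g')
    rw [Finset.disjoint_left]
    intro t ht ht'
    rw [mem_rts (h.irreducible g hg.1).2] at ht
    rw [mem_rts (h.irreducible g' hg'.1).2] at ht'
    exact hne (eq_of_root h hg.1 hg'.1 ht ht')

/-- **The number of points.** -/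
theorem count (h : NonSplit u v G) {F : MvPolynomial (Fin 2) κ} (hF : IsImage F u v) (L : Type)
    [Field L] [Fintype L] [Algebra κ L] :
    (curvePoints F L : ℤ) = Fintype.card L -
      ((∑ g ∈ G, if g.natDegree ∣ Module.finrank κ L then g.natDegree else 0 : ℕ) : ℤ) +
      ((∑ g ∈ G, if g.natDegree / 2 ∣ Module.finrank κ L then g.natDegree / 2 else 0 : ℕ) : ℤ) := by
  classical
  set K := AlgebraicClosure κ with hK
  set q := Fintype.card κ with hq
  set m := Module.finrank κ L with hm
  have hcardL : Fintype.card L = q ^ m := Module.card_eq_pow_finrank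
  let ι : L →ₐ[κ] K := IsAlgClosed.lift
  have hι : Function.Injective ι := ι.injective
  have hιfix : ∀ a : L, (ι a) ^ q ^ m = ι a := by
    intro a
    rw [← map_pow, ← hcardL, FiniteField.pow_card]
  have hqm : 1 < q ^ m := by rw [← hcardL]; exact Fintype.one_lt_card
  -- the fixed points
  let T0 : Finset K := univ.image ι
  have hT0 : ∀ t : K, t ∈ T0 ↔ t ^ q ^ m = t := by
    have hne : (X ^ (q ^ m) - X : K[X]) ≠ 0 := FiniteField.X_pow_card_sub_X_ne_zero K hqm
    have hsub : T0 ⊆ (X ^ (q ^ m) - X : K[X]).roots.toFinset := by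
      intro t ht
      obtain ⟨a, -, rfl⟩ := mem_image.1 ht
      rw [Multiset.mem_toFinset, mem_roots hne, IsRoot.def, eval_sub, eval_pow, eval_X, hιfix,
        sub_self]
    have hcard : (X ^ (q ^ m) - X : K[X]).roots.toFinset.card ≤ T0.card := by
      rw [card_image_of_injective _ hι, card_univ, hcardL]
      refine (Multiset.toFinset_card_le _).trans ((card_roots' _).trans ?_)
      rw [FiniteField.X_pow_card_sub_X_natDegree_eq K hqm]
    have heq := eq_of_subset_of_card_le hsub hcard
    intro t
    rw [heq, Multiset.mem_toFinset, mem_roots hne, IsRoot.def, eval_sub, eval_pow, eval_X,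
      sub_eq_zero]
  let P1 : κ[X] → Prop := fun g => g.natDegree / 2 ∣ m ∧ ¬ g.natDegree ∣ m
  let S : Finset K := T0 ∪ sel G P1
  have hS : ∀ t : K, t ∈ S ↔ param u v (t ^ q ^ m) = param u v t := by
    intro t
    rw [mem_union, hT0, mem_sel h]
    constructor
    · rintro (h1 | ⟨g, hg, hP, ht⟩)
      · rw [h1]
      · exact (param_fixed_iff h hg ht m).2 hP.1
    · intro h1
      by_cases h2 : t ^ q ^ m = t
      · exact Or.inl h2
      · right
        obtain ⟨g, hg, h3, h4⟩ := h.conj _ _ h2 h1
        exact ⟨g, hg, ⟨(param_fixed_iff h hg h4 m).1 h1,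
          fun h5 => h2 ((pow_eq_self_iff (h.irreducible g hg).2 h4 m).2 h5)⟩, h4⟩
  -- the double parameters in `S`
  have hS' : (S.filter fun a => ∃ b ∈ S, b ≠ a ∧ param u v b = param u v a) =
      sel G (fun g => g.natDegree / 2 ∣ m) := by
    ext t
    rw [mem_filter, mem_sel h]
    constructor
    · rintro ⟨hS1, b, -, hb, hpar⟩
      obtain ⟨g, hg, h3, h4⟩ := h.conj _ _ hb hpar
      exact ⟨g, hg, (param_fixed_iff h hg h4 m).1 ((hS t).1 hS1), h4⟩
    · rintro ⟨g, hg, h3, h4⟩
      obtain ⟨D, hD, hdeg, hpar, hne⟩ := partner h hg h4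
      refine ⟨(hS t).2 ((param_fixed_iff h hg h4 m).2 h3), t ^ q ^ D, ?_, hne, hpar⟩
      have h5 : aeval (t ^ q ^ D) g = 0 := by
        rw [aeval_pow_card, h4, zero_pow (pow_pos Fintype.card_pos D).ne']
      exact (hS _).2 ((param_fixed_iff h hg h5 m).2 h3)
  have hdisj : Disjoint T0 (sel G P1) := by
    rw [Finset.disjoint_left]
    intro t ht ht'
    rw [hT0] at ht
    rw [mem_sel h] at ht'
    obtain ⟨g, hg, hP, h4⟩ := ht'
    exact hP.2 ((pow_eq_self_iff (h.irreducible g hg).2 h4 m).1 ht)
  have hcS : S.card = q ^ m + ∑ g ∈ G, if P1 g then g.natDegree else 0 := by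
    rw [card_union_of_disjoint hdisj, card_sel h, card_image_of_injective _ hι, card_univ, hcardL]
  -- the image
  have himg : curvePoints F L = (S.image (param u v)).card := by
    unfold curvePoints
    rw [← Set.ncard_coe_finset]
    have hinj : Function.Injective (fun x : Fin 2 → L => fun i => ι (x i)) := by
      intro x y hxy
      ext i
      exact hι (congrFun hxy i)
    rw [← Set.ncard_image_of_injective _ hinj]
    congr 1
    have hev : ∀ x : Fin 2 → L, MvPolynomial.aeval (fun i => ι (x i)) F =
        ι (MvPolynomial.aeval x F) := by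
      intro x
      have e1 := MvPolynomial.comp_aeval (R := κ) x ι
      have e2 := congrArg (fun f => f F) e1
      exact e2.symm
    ext z
    rw [Finset.mem_coe, mem_image]
    constructor
    · rintro ⟨x, hx, rfl⟩
      have hx' : MvPolynomial.aeval x F = 0 := hx
      have h1 : MvPolynomial.aeval (fun i => ι (x i)) F = 0 := by rw [hev, hx', map_zero]
      obtain ⟨t, ht⟩ := (hF _).1 h1
      refine ⟨t, ?_, ht⟩
      rw [hS, param_pow, ht]
      ext i
      exact hιfix (x i)
    · rintro ⟨t, ht, rfl⟩
      rw [hS, param_pow] at ht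
      have h1 : ∀ i, ∃ a : L, ι a = param u v t i := by
        intro i
        have h2 : param u v t i ∈ T0 := (hT0 _).2 (congrFun ht i)
        obtain ⟨a, -, ha⟩ := mem_image.1 h2
        exact ⟨a, ha⟩
      choose x hx using h1
      have h2 : (fun i => ι (x i)) = param u v t := funext hx
      refine ⟨x, ?_, h2⟩
      change MvPolynomial.aeval x F = 0
      apply hι
      rw [← hev, h2, map_zero]
      exact (hF _).2 ⟨t, rfl⟩
  have h2 := two_card S (param u v) (fun a b c => h.two a b c)
  rw [hS', card_sel h, hcS, ← himg] at h2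
  -- the sums
  have h3 : (∑ g ∈ G, if P1 g then g.natDegree else 0) +
      (∑ g ∈ G, if g.natDegree ∣ m then g.natDegree else 0) =
      ∑ g ∈ G, if g.natDegree / 2 ∣ m then g.natDegree else 0 := by
    rw [← sum_add_distrib]
    refine sum_congr rfl fun g hg => ?_
    obtain ⟨-, hirr⟩ := h.irreducible g hg
    obtain ⟨t, ht⟩ := IsAlgClosed.exists_aeval_eq_zero K g
      (degree_pos_of_irreducible hirr).ne'
    obtain ⟨D, hD, hdeg, -, -⟩ := partner h hg ht
    have h4 : g.natDegree / 2 = D := by omega
    have h5 : g.natDegree ∣ m → D ∣ m := fun h6 => (Dvd.intro_left 2 hdeg.symm).trans h6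
    by_cases h6 : g.natDegree ∣ m
    · have h7 := h5 h6
      simp only [P1, h4, h6, h7, not_true, and_false, if_true, if_false, zero_add]
    · by_cases h7 : D ∣ m
      · simp only [P1, h4, h6, h7, not_false_eq_true, and_true, if_true, if_false, add_zero]
      · simp only [P1, h4, h6, h7, not_false_eq_true, false_and, if_false, add_zero]
  have h4 : ∑ g ∈ G, (if g.natDegree / 2 ∣ m then g.natDegree else 0) =
      2 * ∑ g ∈ G, if g.natDegree / 2 ∣ m then g.natDegree / 2 else 0 := by
    rw [mul_sum]
    refine sum_congr rfl fun g hg => ?_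
    obtain ⟨-, hirr⟩ := h.irreducible g hg
    obtain ⟨t, ht⟩ := IsAlgClosed.exists_aeval_eq_zero K g
      (degree_pos_of_irreducible hirr).ne'
    obtain ⟨D, hD, hdeg, -, -⟩ := partner h hg ht
    split_ifs
    · omega
    · rfl
  rw [hcardL]
  generalize (∑ g ∈ G, if P1 g then g.natDegree else 0) = a at h2 h3
  generalize (∑ g ∈ G, if g.natDegree ∣ m then g.natDegree else 0) = b at h3 ⊢
  generalize (∑ g ∈ G, if g.natDegree / 2 ∣ m then g.natDegree else 0) = c at h2 h3 h4
  generalize (∑ g ∈ G, if g.natDegree / 2 ∣ m then g.natDegree / 2 else 0) = d at h4 ⊢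
  zify at h2 h3 h4
  push_cast
  linarith

end

end Pool.Agent.Run7.h735.RN
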