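import Mathlib

/-!
# Frobenius and the roots of irreducible polynomials over finite fields
-/

set_option autoImplicit false

namespace Pool.Agent.Run7.h735.RN

open Polynomial Finset

variable {κ : Type} [Field κ] [Fintype κ]

/-- A root of an irreducible polynomial is fixed by the `j`-th power of Frobenius if and only if the degree divides
`j`. -/
theorem pow_eq_self_iff {K : Type} [Field K] [Algebra κ K] {g : κ[X]} (hg : Irreducible g) {t : K}
    (ht : aeval t g = 0) (j : ℕ) :
    t ^ Fintype.card κ ^ j = t ↔ g.natDegree ∣ j := by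
  rw [hg.natDegree_dvd_iff_dvd_X_pow_card_pow_sub_X, Nat.card_eq_fintype_card]
  have h1 := hg.dvd_iff_aeval_eq_zero ht (q := (X ^ Fintype.card κ ^ j - X : κ[X]))
  rw [← h1, map_sub, map_pow, aeval_X, sub_eq_zero]

omit [Fintype κ] in
lemma pow_add_iter {K : Type} [Field K] (q i j : ℕ) (t : K) :
    (t ^ q ^ i) ^ q ^ j = t ^ q ^ (i + j) := by
  rw [← pow_mul, ← pow_add]

lemma aeval_pow_card {K : Type} [Field K] [Algebra κ K] (u : κ[X]) (t : K) (j : ℕ) :
    aeval (t ^ Fintype.card κ ^ j) u = (aeval t u) ^ Fintype.card κ ^ j := by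
  induction j generalizing t with
  | zero => simp
  | succ j ih =>
    rw [pow_succ', pow_mul, ih, pow_mul]
    congr 1
    rw [← map_pow, ← FiniteField.expand_card, expand_aeval]

/-- The roots of an irreducible polynomial are conjugate. -/
theorem conj_roots {K : Type} [Field K] [Algebra κ K] {g : κ[X]} (hg : Irreducible g) {t t' : K}
    (ht : aeval t g = 0) (ht' : aeval t' g = 0) :
    ∃ j < g.natDegree, t' = t ^ Fintype.card κ ^ j := by
  classical
  set q := Fintype.card κ
  have hroot : ∀ j : ℕ, aeval (t ^ q ^ j) g = 0 := by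
    intro j
    rw [aeval_pow_card, ht, zero_pow (pow_pos Fintype.card_pos j).ne']
  have hne : g.map (algebraMap κ K) ≠ 0 := by
    rw [Ne, Polynomial.map_eq_zero]
    exact hg.ne_zero
  let R : Finset K := (g.map (algebraMap κ K)).roots.toFinset
  have hR : ∀ x : K, x ∈ R ↔ aeval x g = 0 := by
    intro x
    rw [Multiset.mem_toFinset, mem_roots hne, IsRoot.def, eval_map_algebraMap]
  let I : Finset K := (range g.natDegree).image fun j => t ^ q ^ j
  have hI : I.card = g.natDegree := by
    rw [card_image_of_injOn, card_range]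
    have key : ∀ i j : ℕ, i ≤ j → j < g.natDegree → t ^ q ^ i = t ^ q ^ j → i = j := by
      intro i j hij hj h
      have h1 : (t ^ q ^ i) ^ q ^ (j - i) = t ^ q ^ i := by
        rw [pow_add_iter, Nat.add_sub_cancel' hij, ← h]
      have h2 := (pow_eq_self_iff hg (hroot i) (j - i)).1 h1
      have h3 := Nat.eq_zero_of_dvd_of_lt h2 (by omega)
      omega
    intro i hi j hj h
    rw [coe_range, Set.mem_Iio] at hi hj
    rcases le_total i j with hij | hij
    · exact key i j hij hj h
    · exact (key j i hij hi h.symm).symm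
  have hsub : I ⊆ R := by
    intro x hx
    obtain ⟨j, -, rfl⟩ := mem_image.1 hx
    rw [hR]
    exact hroot j
  have hcard : R.card ≤ I.card := by
    rw [hI]
    refine (Multiset.toFinset_card_le _).trans ?_
    refine (card_roots' _).trans ?_
    rw [natDegree_map]
  have heq := eq_of_subset_of_card_le hsub hcard
  have h1 : t' ∈ I := by
    rw [heq, hR]
    exact ht'
  obtain ⟨j, hj, hj'⟩ := mem_image.1 h1
  exact ⟨j, mem_range.1 hj, hj'.symm⟩

/-- The number of the roots. -/
theorem card_roots_irred {K : Type} [Field K] [IsAlgClosed K] [Algebra κ K] {g : κ[X]}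
    (hg : Irreducible g) : {t : K | aeval t g = 0}.ncard = g.natDegree := by
  classical
  have hne : g.map (algebraMap κ K) ≠ 0 := by
    rw [Ne, Polynomial.map_eq_zero]
    exact hg.ne_zero
  have hset : {x : K | aeval x g = 0} = ((g.map (algebraMap κ K)).roots.toFinset : Set K) := by
    ext x
    simp only [Set.mem_ofPred_eq, Finset.mem_coe, Multiset.mem_toFinset]
    rw [mem_roots hne, IsRoot.def, eval_map_algebraMap]
  have hsep : (g.map (algebraMap κ K)).Separable := (PerfectField.separable_of_irreducible hg).map
  rw [hset, Set.ncard_coe_finset, Multiset.toFinset_card_of_nodup (nodup_roots hsep),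
    splits_iff_card_roots.1 (IsAlgClosed.splits _), natDegree_map]

end Pool.Agent.Run7.h735.RN
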