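import Pool.Agent.Run7.h735.RN.Zeta
import Pool.Agent.Run7.h735.IK.Quot
import Pool.Agent.Run7.h735.CF.Defs

/-!
# The multiplicities of the cyclotomic polynomials
-/

set_option autoImplicit false

namespace Pool.Agent.Run7.h735.RN

open Finset Polynomial Pool.Agent.Run7.h735.IK

/-- The multiplicities. -/
def nmult {κ : Type} [Field κ] (p : ℕ) (G : Finset κ[X]) (M : ℕ) : ℕ :=
  ∑ g ∈ G, p ^ (g.natDegree / 2).factorization p *
    (if M ∣ 2 * (g.natDegree / 2) ∧ ¬ M ∣ g.natDegree / 2 then 1 else 0)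

section
variable {p : ℕ} [Fact p.Prime] {Kb : Type} [Field Kb] [CharP Kb p]

lemma one_add_ne_zero {D : ℕ} (hD : 0 < D) : (1 + X ^ D : Kb[X]) ≠ 0 := by
  intro h0
  have := congrArg (Polynomial.eval 0) h0
  simp [hD.ne'] at this

/-- The multiplicity of a primitive root of unity as a root of `1 + X ^ D`. -/
theorem rootMultiplicity_one_add (hp2 : p ≠ 2) {D M : ℕ} (hD : 0 < D) (hM : ¬ p ∣ M) {ζ : Kb}
    (hζ : IsPrimitiveRoot ζ M) :
    (1 + X ^ D : Kb[X]).rootMultiplicity ζ ≤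
      p ^ D.factorization p * (if M ∣ 2 * D ∧ ¬ M ∣ D then 1 else 0) := by
  classical
  have hp : p.Prime := Fact.out
  set a := D.factorization p with ha
  set D' := co p D with hD'
  have hDD : p ^ a * D' = D := pow_mul_co p D
  have hpD' : ¬ p ∣ D' := not_dvd_co hp hD.ne'
  have hD'0 : 0 < D' := Nat.pos_of_ne_zero (by rintro h; rw [h] at hpD'; exact hpD' (dvd_zero p))
  have hcop : Nat.Coprime M (p ^ a) :=
    (Nat.Coprime.pow_left a ((Nat.Prime.coprime_iff_not_dvd hp).2 hM)).symm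
  have h1 : (1 + X ^ D : Kb[X]) = (1 + X ^ D') ^ p ^ a := by
    rw [add_pow_char_pow, one_pow, ← pow_mul, mul_comm D', hDD]
  rw [h1, rootMultiplicity_pow' (one_add_ne_zero hD'0)]
  refine Nat.mul_le_mul_left _ ?_
  have hDKb : (D' : Kb) ≠ 0 := by rwa [Ne, CharP.cast_eq_zero_iff Kb p D']
  have hsep : (1 + X ^ D' : Kb[X]).Separable := by
    have h2 : (X ^ D' - C (-1) : Kb[X]).Separable :=
      separable_X_pow_sub_C (-1 : Kb) hDKb (neg_ne_zero.2 one_ne_zero)
    have h3 : (X ^ D' - C (-1) : Kb[X]) = 1 + X ^ D' := by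
      rw [C_neg, C_1]
      ring
    rwa [h3] at h2
  have hle1 : (1 + X ^ D' : Kb[X]).rootMultiplicity ζ ≤ 1 :=
    rootMultiplicity_le_one_of_separable hsep ζ
  by_cases h2 : M ∣ 2 * D ∧ ¬ M ∣ D
  · rw [if_pos h2]
    exact hle1
  · rw [if_neg h2, Nat.le_zero]
    apply rootMultiplicity_eq_zero
    rw [IsRoot.def, eval_add, eval_pow, eval_X, eval_one]
    intro h3
    apply h2
    have h4 : ζ ^ D' = -1 := by linear_combination h3
    have h5 : ζ ^ (2 * D') = 1 := by rw [mul_comm, pow_mul, h4]; ring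
    have h6 : M ∣ 2 * D' := (hζ.pow_eq_one_iff_dvd _).1 h5
    refine ⟨?_, ?_⟩
    · rw [← hDD]
      exact h6.trans ⟨p ^ a, by ring⟩
    · intro h7
      rw [← hDD] at h7
      have h8 : M ∣ D' := hcop.dvd_of_dvd_mul_left h7
      have h9 : ζ ^ D' = 1 := (hζ.pow_eq_one_iff_dvd _).2 h8
      rw [h9] at h4
      have h10 : ((2 : ℕ) : Kb) = 0 := by
        push_cast
        linear_combination h4
      rw [CharP.cast_eq_zero_iff Kb p 2] at h10
      have h11 := (Nat.prime_dvd_prime_iff_eq hp Nat.prime_two).1 h10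
      exact hp2 h11

variable {κ : Type} [Field κ]

lemma npoly_ne_zero (G : Finset κ[X]) (hG : ∀ g ∈ G, 0 < g.natDegree / 2) :
    npoly Kb G ≠ 0 := by
  unfold npoly
  rw [prod_ne_zero_iff]
  exact fun g hg => one_add_ne_zero (hG g hg)

theorem rootMultiplicity_npoly (hp2 : p ≠ 2) {M : ℕ} (hM : ¬ p ∣ M) {ζ : Kb}
    (hζ : IsPrimitiveRoot ζ M) : ∀ G : Finset κ[X], (∀ g ∈ G, 0 < g.natDegree / 2) →
    (npoly Kb G).rootMultiplicity ζ ≤ nmult p G M := by
  classical
  intro G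
  induction G using Finset.induction_on with
  | empty =>
    intro _
    unfold npoly
    rw [prod_empty, ← C_1, rootMultiplicity_C]
    exact Nat.zero_le _
  | insert a s ha ih =>
    intro hG
    have h1 := ih fun g hg => hG g (mem_insert_of_mem hg)
    have hne := npoly_ne_zero (Kb := Kb) (insert a s) hG
    unfold npoly at hne h1 ⊢
    unfold nmult at h1 ⊢
    rw [prod_insert ha] at hne ⊢
    rw [rootMultiplicity_mul hne, sum_insert ha]
    exact Nat.add_le_add (rootMultiplicity_one_add hp2 (hG a (mem_insert_self a s)) hM hζ) h1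

end

/-- The cyclotomic polynomials divide `npoly` at most `nmult` times. -/
theorem dividesAt {p : ℕ} (hp : p.Prime) (hp2 : p ≠ 2) {κ : Type} [Field κ] {G : Finset κ[X]}
    (hG : ∀ g ∈ G, 0 < g.natDegree / 2) {m : ℕ} (hm : 0 < m) :
    CF.DividesAt p (npoly (ZMod p) G) (nmult p G) m := by
  classical
  have hfact : Fact p.Prime := ⟨hp⟩
  intro M hMm hMp hdvd
  have hM0 : 0 < M := Nat.pos_of_dvd_of_pos hMm hm
  let Kb := AlgebraicClosure (ZMod p)
  have hchar : CharP Kb p := charP_of_injective_algebraMap (algebraMap (ZMod p) Kb).injective p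
  have hMKb : NeZero (M : Kb) := ⟨by rwa [Ne, CharP.cast_eq_zero_iff Kb p M]⟩
  obtain ⟨ζ, hζ⟩ : ∃ ζ : Kb, IsPrimitiveRoot ζ M := by
    obtain ⟨ζ, hζ⟩ := IsAlgClosed.exists_root (cyclotomic M Kb)
      (by rw [degree_cyclotomic]; exact_mod_cast (Nat.totient_pos.2 hM0).ne')
    exact ⟨ζ, isRoot_cyclotomic_iff.1 hζ⟩
  have h1 := Polynomial.map_dvd (algebraMap (ZMod p) Kb) hdvd
  rw [Polynomial.map_pow, map_cyclotomic, map_npoly] at h1
  have h2 : (X - C ζ) ^ (nmult p G M + 1) ∣ npoly Kb G := by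
    refine (pow_dvd_pow_of_dvd ?_ _).trans h1
    rw [dvd_iff_isRoot]
    exact isRoot_cyclotomic_iff.2 hζ
  have h3 := (le_rootMultiplicity_iff (npoly_ne_zero (Kb := Kb) G hG)).2 h2
  have h4 := rootMultiplicity_npoly hp2 hMp hζ G hG
  omega

/-- The sum of the totients of the divisors prime to `p`. -/
lemma sum_totient_co {p : ℕ} (hp : p.Prime) {n : ℕ} (hn : 0 < n) :
    ∑ M ∈ n.divisors.filter (fun M => ¬ p ∣ M), M.totient = co p n := by
  have h1 : n.divisors.filter (fun M => ¬ p ∣ M) = (co p n).divisors := by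
    ext M
    rw [mem_filter, Nat.mem_divisors, Nat.mem_divisors]
    have hco : co p n ≠ 0 := by
      intro h
      have := not_dvd_co hp hn.ne'
      rw [h] at this
      exact this (dvd_zero p)
    have h2 := pow_mul_co p n
    constructor
    · rintro ⟨⟨h3, -⟩, h4⟩
      refine ⟨?_, hco⟩
      rw [← h2] at h3
      exact Nat.Coprime.dvd_of_dvd_mul_left
        (Nat.Coprime.pow_left _ ((Nat.Prime.coprime_iff_not_dvd hp).2 h4)).symm h3
    · rintro ⟨h3, -⟩
      refine ⟨⟨h3.trans ⟨p ^ n.factorization p, by rw [mul_comm]; exact h2.symm⟩, hn.ne'⟩, ?_⟩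
      intro h4
      exact not_dvd_co hp hn.ne' (h4.trans h3)
  rw [h1, Nat.sum_totient]

/-- The value of the bound. -/
theorem level_value {p : ℕ} (hp : p.Prime) (s : ℕ) {m : ℕ} (hm : 0 < m) {κ : Type} [Field κ]
    (G : Finset κ[X]) :
    CF.levelBound p s (nmult p G) m = nodeBound p s G m := by
  unfold CF.levelBound nodeBound
  congr 1
  have h0 : ∑ M ∈ m.divisors.filter (fun M => ¬ p ∣ M), M.totient * nmult p G M =
      ∑ g ∈ G, ∑ M ∈ m.divisors.filter (fun M => ¬ p ∣ M), M.totient *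
        (p ^ (g.natDegree / 2).factorization p *
          (if M ∣ 2 * (g.natDegree / 2) ∧ ¬ M ∣ g.natDegree / 2 then 1 else 0)) := by
    unfold nmult
    rw [sum_comm]
    exact sum_congr rfl fun M _ => by rw [mul_sum]
  rw [h0]
  refine sum_congr rfl fun g _ => ?_
  set D := g.natDegree / 2 with hD
  change _ = p ^ D.factorization p * (co p (Nat.gcd m (2 * D)) - co p (Nat.gcd m D))
  have h1 : ∀ M ∈ m.divisors.filter (fun M => ¬ p ∣ M), M.totient *
      (p ^ D.factorization p * (if M ∣ 2 * D ∧ ¬ M ∣ D then 1 else 0)) =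
      p ^ D.factorization p * (if M ∣ 2 * D ∧ ¬ M ∣ D then M.totient else 0) := by
    intro M _
    split_ifs <;> ring
  rw [sum_congr rfl h1, ← mul_sum]
  congr 1
  have hg1 : 0 < Nat.gcd m (2 * D) := Nat.gcd_pos_of_pos_left _ hm
  have hg2 : 0 < Nat.gcd m D := Nat.gcd_pos_of_pos_left _ hm
  rw [← sum_totient_co hp hg1, ← sum_totient_co hp hg2, ← sum_filter]
  have h2 : ((m.divisors.filter (fun M => ¬ p ∣ M)).filter fun M => M ∣ 2 * D ∧ ¬ M ∣ D) =
      ((Nat.gcd m (2 * D)).divisors.filter (fun M => ¬ p ∣ M)) \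
        ((Nat.gcd m D).divisors.filter (fun M => ¬ p ∣ M)) := by
    ext M
    simp only [mem_filter, mem_sdiff, Nat.mem_divisors, Nat.dvd_gcd_iff]
    constructor
    · rintro ⟨⟨⟨h3, h4⟩, h5⟩, h6, h7⟩
      exact ⟨⟨⟨⟨h3, h6⟩, hg1.ne'⟩, h5⟩, fun h8 => h7 h8.1.1.2⟩
    · rintro ⟨⟨⟨⟨h3, h6⟩, -⟩, h5⟩, h7⟩
      exact ⟨⟨⟨h3, hm.ne'⟩, h5⟩, h6, fun h8 => h7 ⟨⟨⟨h3, h8⟩, hg2.ne'⟩, h5⟩⟩
  have h3 : ((Nat.gcd m D).divisors.filter (fun M => ¬ p ∣ M)) ⊆
      ((Nat.gcd m (2 * D)).divisors.filter (fun M => ¬ p ∣ M)) := by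
    intro M
    simp only [mem_filter, Nat.mem_divisors, Nat.dvd_gcd_iff]
    rintro ⟨⟨⟨h4, h5⟩, -⟩, h6⟩
    exact ⟨⟨⟨h4, h5.mul_left 2⟩, hg1.ne'⟩, h6⟩
  rw [h2, ← sum_sdiff h3, Nat.add_sub_cancel]

/-- The bound is zero if `m` is not divisible by the power of `2` in `2 D`. -/
theorem nodeBound_zero (p s : ℕ) {κ : Type} [Field κ] {G : Finset κ[X]} {m : ℕ} (hm : 0 < m)
    (hG : ∀ g ∈ G, g.natDegree = 2 * (g.natDegree / 2) ∧ 0 < g.natDegree / 2)
    (h : ∀ g ∈ G, ¬ 2 ^ g.natDegree.factorization 2 ∣ m) : nodeBound p s G m = 0 := by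
  unfold nodeBound
  rw [sum_eq_zero, mul_zero]
  intro g hg
  obtain ⟨h1, h2⟩ := hG g hg
  have h3 := h g hg
  rw [h1] at h3
  set D := g.natDegree / 2 with hD
  have h4 : Nat.gcd m (2 * D) = Nat.gcd m D := by
    apply Nat.dvd_antisymm
    · refine Nat.dvd_gcd (Nat.gcd_dvd_left _ _) ?_
      obtain ⟨k, hk⟩ := Nat.gcd_dvd_right m (2 * D)
      set c := Nat.gcd m (2 * D) with hc
      rcases Nat.even_or_odd k with hk2 | hk2
      · obtain ⟨j, rfl⟩ := hk2
        refine ⟨j, ?_⟩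
        have : 2 * D = 2 * (c * j) := by rw [hk]; ring
        omega
      · exfalso
        apply h3
        have hcop : Nat.Coprime (2 ^ (2 * D).factorization 2) k :=
          Nat.Coprime.pow_left _ (Nat.coprime_two_left.2 hk2)
        have h5 : 2 ^ (2 * D).factorization 2 ∣ c * k := by
          rw [← hk]
          exact Nat.ordProj_dvd _ _
        exact (hcop.dvd_of_dvd_mul_right h5).trans (Nat.gcd_dvd_left _ _)
    · exact Nat.dvd_gcd (Nat.gcd_dvd_left _ _) ((Nat.gcd_dvd_right _ _).mul_left 2)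
  unfold nodeTerm
  rw [h4, Nat.sub_self, mul_zero]

end Pool.Agent.Run7.h735.RN
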