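import Pool.Agent.Run7.h735.RN.Count
import Pool.Agent.Run7.h735.IK.Roots

/-!
# The zeta function of a rational curve with non-split double points
-/

set_option autoImplicit false

namespace Pool.Agent.Run7.h735.RN

open Finset Polynomial Pool.Agent.Y134.Cyc Pool.Agent.W528.HS Pool.Agent.W111.HS.EC
  Pool.Agent.Run7.h735.IK

/-- The product of the `1 + X ^ (d / 2)`, `d` the degree of `g`, for `g` in `G`. -/
noncomputable def npoly {κ : Type} [Field κ] (R : Type) [CommRing R] (G : Finset κ[X]) : R[X] :=
  ∏ g ∈ G, (1 + X ^ (g.natDegree / 2))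

/-- The product of the `1 - X ^ f(g)`. -/
noncomputable def opoly {κ : Type} [Field κ] (R : Type) [CommRing R] (G : Finset κ[X])
    (f : κ[X] → ℕ) : R[X] :=
  ∏ g ∈ G, (1 - X ^ f g)

lemma map_npoly {κ : Type} [Field κ] {R S : Type} [CommRing R] [CommRing S] (f : R →+* S)
    (G : Finset κ[X]) : (npoly R G).map f = npoly S G := by
  unfold npoly
  rw [Polynomial.map_prod]
  refine prod_congr rfl fun g _ => ?_
  simp

lemma map_opoly {κ : Type} [Field κ] {R S : Type} [CommRing R] [CommRing S] (φ : R →+* S)
    (G : Finset κ[X]) (f : κ[X] → ℕ) : (opoly R G f).map φ = opoly S G f := by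
  unfold opoly
  rw [Polynomial.map_prod]
  refine prod_congr rfl fun g _ => ?_
  simp

variable {κ : Type} [Field κ] [Fintype κ] {u v : κ[X]} {G : Finset κ[X]}

lemma NonSplit.deg (h : NonSplit u v G) {g : κ[X]} (hg : g ∈ G) :
    g.natDegree = 2 * (g.natDegree / 2) ∧ 0 < g.natDegree / 2 := by
  obtain ⟨t, ht⟩ := IsAlgClosed.exists_aeval_eq_zero (AlgebraicClosure κ) g
    (degree_pos_of_irreducible (h.irreducible g hg).2).ne'
  obtain ⟨D, hD, hdeg, -, -⟩ := partner h hg ht
  omega

lemma opoly_mul (h : NonSplit u v G) (R : Type) [CommRing R] :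
    opoly R G (fun g => g.natDegree) = npoly R G * opoly R G (fun g => g.natDegree / 2) := by
  unfold opoly npoly
  rw [← prod_mul_distrib]
  refine prod_congr rfl fun g hg => ?_
  have h1 := (h.deg hg).1
  have h2 : (X : R[X]) ^ g.natDegree = X ^ (g.natDegree / 2) * X ^ (g.natDegree / 2) := by
    rw [← pow_add, ← two_mul, ← h1]
  change 1 - X ^ g.natDegree = (1 + X ^ (g.natDegree / 2)) * (1 - X ^ (g.natDegree / 2))
  rw [h2]
  ring

omit [Fintype κ] in
lemma prod_roots {E : Type} [Field E] [IsAlgClosed E] (f : κ[X] → ℕ) :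
    ∀ G : Finset κ[X], (∀ g ∈ G, 0 < f g) →
    (((∑ g ∈ G, nthRoots (f g) (1 : E)) : Multiset E).map fun x => 1 - C x * X).prod =
      opoly E G f := by
  classical
  intro G
  unfold opoly
  induction G using Finset.induction_on with
  | empty => intro _; simp
  | insert a s ha ih =>
    intro hpos
    rw [sum_insert ha, prod_insert ha, Multiset.map_add, Multiset.prod_add,
      prod_nthRoots (hpos a (mem_insert_self a s)), ih fun g hg => hpos g (mem_insert_of_mem hg)]

omit [Fintype κ] in
lemma sum_roots {E : Type} [Field E] [IsAlgClosed E] (f : κ[X] → ℕ) {m : ℕ} (hm : 1 ≤ m) :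
    ∀ G : Finset κ[X], (∀ g ∈ G, 0 < f g) →
    (((∑ g ∈ G, nthRoots (f g) (1 : E)) : Multiset E).map fun x => x ^ m).sum =
      ((∑ g ∈ G, if f g ∣ m then f g else 0 : ℕ) : E) := by
  classical
  intro G
  induction G using Finset.induction_on with
  | empty => intro _; simp
  | insert a s ha ih =>
    intro hpos
    rw [sum_insert ha, sum_insert ha, Multiset.map_add, Multiset.sum_add,
      sum_nthRoots (hpos a (mem_insert_self a s)) hm,
      ih fun g hg => hpos g (mem_insert_of_mem hg)]
    push_cast
    rfl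

/-- **The zeta function modulo `p`.** -/
theorem quotient_eq {p : ℕ} (hp : p.Prime) (h : NonSplit u v G) {F : MvPolynomial (Fin 2) κ}
    (hF : IsImage F u v)
    {E : Type} [Field E] [CharZero E] [IsAlgClosed E] (P₁ P₂ : ℤ[X]) (B₁ B₂ : Multiset E)
    (hB₁ : P₁.map (Int.castRingHom E) = (B₁.map fun x => 1 - C x * X).prod)
    (hB₂ : P₂.map (Int.castRingHom E) = (B₂.map fun x => 1 - C x * X).prod)
    (hC : ∀ (L : Type) [Field L] [Fintype L] [Algebra κ L],
      (curvePoints F L : E) =
        Fintype.card L - (B₁.map fun x => x ^ Module.finrank κ L).sum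
          + (B₂.map fun x => x ^ Module.finrank κ L).sum) :
    npoly (ZMod p) G * P₂.map (Int.castRingHom (ZMod p)) =
      P₁.map (Int.castRingHom (ZMod p)) := by
  classical
  have hfact : Fact p.Prime := ⟨hp⟩
  have hpos1 : ∀ g ∈ G, 0 < g.natDegree := fun g hg => by
    have := h.deg hg
    omega
  have hpos2 : ∀ g ∈ G, 0 < g.natDegree / 2 := fun g hg => (h.deg hg).2
  have key := zeta_congr hp (E := E) (P₁ * opoly ℤ G (fun g => g.natDegree / 2))
    (P₂ * opoly ℤ G (fun g => g.natDegree))
    (B₁ + ∑ g ∈ G, nthRoots (g.natDegree / 2) (1 : E)) (B₂ + ∑ g ∈ G, nthRoots g.natDegree (1 : E))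
    (by
      rw [Polynomial.map_mul, hB₁, Multiset.map_add, Multiset.prod_add, map_opoly,
        prod_roots (fun g => g.natDegree / 2) G hpos2])
    (by
      rw [Polynomial.map_mul, hB₂, Multiset.map_add, Multiset.prod_add, map_opoly,
        prod_roots (fun g => g.natDegree) G hpos1])
    (fun _ => 0)
    (by
      intro m hm
      obtain ⟨L, _, _, _, hL⟩ := exists_ext κ m hm
      have h1 := hC L
      have h2 := count h hF L
      rw [hL] at h1 h2
      rw [Multiset.map_add, Multiset.sum_add, Multiset.map_add, Multiset.sum_add,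
        sum_roots (fun g => g.natDegree / 2) hm G hpos2, sum_roots (fun g => g.natDegree) hm G hpos1]
      have h4 : dsum (fun _ => 0) m = 0 := by simp [dsum]
      rw [h4]
      generalize (∑ g ∈ G, if g.natDegree ∣ m then g.natDegree else 0) = a at h2 ⊢
      generalize (∑ g ∈ G, if g.natDegree / 2 ∣ m then g.natDegree / 2 else 0) = b at h2 ⊢
      have h3 := congrArg (Int.cast : ℤ → E) h2
      push_cast at h3 ⊢
      linear_combination h1 - h3)
    (by
      intro m _
      have h4 : dsum (fun _ => 0) m = 0 := by simp [dsum]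
      rw [h4]
      exact dvd_zero _)
  rw [Polynomial.map_mul, Polynomial.map_mul, map_opoly, map_opoly, opoly_mul h] at key
  have hne : opoly (ZMod p) G (fun g => g.natDegree / 2) ≠ 0 := by
    unfold opoly
    rw [prod_ne_zero_iff]
    intro g hg h0
    have := congrArg (Polynomial.eval 0) h0
    have h1 := hpos2 g hg
    simp [h1.ne'] at this
  apply mul_right_cancel₀ hne
  rw [key]
  ring

end Pool.Agent.Run7.h735.RN
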